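import Pool.Agent.H23.LC.Targets
import Pool.Agent.H6.GLA.CF

/-!
# Board glb_modules, module CG: properties of the coefficients
-/

set_option autoImplicit false

open NumberField NumberField.InfinitePlace NumberField.Units
  NumberField.Units.dirichletUnitTheorem MeasureTheory Set Filter Complex
open scoped nonZeroDivisors ENNReal

namespace Pool.Agent.H60.GLB

open Pool.Agent.H28.RC (Rep ft idl T_ID)
open Pool.Agent.H25.HK Pool.Agent.H25 Pool.Agent.H23.LB Pool.Agent.H23.LC Pool.Agent.H92.RC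
open Pool.Agent.H6.GLA (cf_norm_ph cf_ph_conj cf_ph_mul z1_spec fM_le)

section

variable {K : Type} [Field K] [NumberField K]

lemma cg_ag_conj (hAG : U_AG) (k : InfinitePlace K → ℤ) {x : K} (hx : x ≠ 0) :
    ag k x * (starRingEnd ℂ) (ag k x) = 1 := by
  rw [mul_conj, normSq_eq_norm_sq, (hAG K k).2.1 x hx]
  simp

lemma cg_ag_mul (hAG : U_AG) (k : InfinitePlace K → ℤ) {x y : K} (hx : x ≠ 0) (hy : y ≠ 0) :
    (starRingEnd ℂ) (ag k (x * y)) = (starRingEnd ℂ) (ag k x) * (starRingEnd ℂ) (ag k y) := by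
  rw [(hAG K k).1 x y hx hy, map_mul]

variable {f : Ideal (𝓞 K)}

lemma hg_map_one (χ : HG K f) : χ.ψ 1 = 1 := by
  rw [Ideal.one_eq_top]
  exact χ.map_top

lemma hg_norm_le (χ : HG K f) (I : Ideal (𝓞 K)) : ‖χ.ψ I‖ ≤ 1 := by
  by_cases h : I = ⊥
  · rw [h, χ.map_bot]
    simp
  · by_cases h2 : I ⊔ f = ⊤
    · exact (χ.norm_one I h h2).le
    · rw [χ.eq_zero I h2]
      simp

/-- the coefficient at a nonzero element -/
noncomputable def g0 (χ : HG K f) (M : FI K) (x : K) : ℂ :=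
  (starRingEnd ℂ) (ag χ.k x) * (starRingEnd ℂ) (ph χ.ν x) * χ.ψ (idl K M x)

lemma cg_eq_g0 (χ : HG K f) (M : FI K) {x : K} (hx : x ≠ 0) : cg χ M x = g0 χ M x := by
  unfold cg g0
  rw [if_neg hx]

lemma cg_zero_g0 (χ : HG K f) (M : FI K) : cg χ M 0 = g0 χ M (z1 K f M) := by
  unfold cg g0
  rw [if_pos rfl]

lemma g0_norm (hAG : U_AG) (χ : HG K f) (M : FI K) {x : K} (hx : x ≠ 0) : ‖g0 χ M x‖ = ‖χ.ψ (idl K M x)‖ := by
  unfold g0
  rw [norm_mul, norm_mul, RCLike.norm_conj, (hAG K χ.k).2.1 x hx, one_mul, RCLike.norm_conj,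
    cf_norm_ph, one_mul]

lemma cg_zero_of_ne_top (hID : T_ID) (χ : HG K f) (hf : f ≠ ⊥) {M : FI K} (hM : M ≠ 0)
    (hft : f ≠ ⊤) : cg χ M 0 = 0 := by
  obtain ⟨h1, h2⟩ := z1_spec hID hf hM
  obtain ⟨h3, h4⟩ := (hID K M hM).2.2.2.2.1 f hf (z1 K f M) h2
  have h5 : idl K M (z1 K f M) ⊔ f ≠ ⊤ := by
    rw [h4, sup_eq_right.2 Ideal.mul_le_left]
    exact hft
  rw [cg_zero_g0]
  unfold g0
  rw [χ.eq_zero _ h5, mul_zero]

lemma cg_mul_a (hAG : U_AG) (hID : T_ID) (χ : HG K f) (hf : f ≠ ⊥) {M : FI K} (hM : M ≠ 0) {a : 𝓞 K}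
    (ha : a ≠ 0) {x : K} (hx : x ∈ M) :
    cg χ M ((a : K) * x) = (starRingEnd ℂ) (ag χ.k (a : K)) * (starRingEnd ℂ) (ph χ.ν (a : K)) *
      χ.ψ (Ideal.span {a}) * cg χ M x := by
  have ha' : (a : K) ≠ 0 := by
    simpa using ha
  by_cases h0 : x = 0
  · rw [h0, mul_zero]
    by_cases hft : f = ⊤
    · rw [χ.princ a ha (by rw [hft]; trivial)]
      have h1 := cg_ag_conj hAG χ.k ha'
      have h2 := cf_ph_conj χ.ν (a : K)
      linear_combination (-(cg χ M 0)) * h1 - (ag χ.k (a : K) *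
        (starRingEnd ℂ) (ag χ.k (a : K)) * cg χ M 0) * h2
    · rw [cg_zero_of_ne_top hID χ hf hM hft, mul_zero]
  · rw [cg_eq_g0 χ M (mul_ne_zero ha' h0), cg_eq_g0 χ M h0]
    unfold g0
    rw [cg_ag_mul hAG χ.k ha' h0, cf_ph_mul χ.ν ha' h0, (hID K M hM).2.2.1 a x hx, χ.map_mul, map_mul]
    ring

/-- the main step of the periodicity -/
lemma cg_step1 (hAG : U_AG) (hID : T_ID) (χ : HG K f) (M : FI K) (hM : M ≠ 0) {x x' : K} (hx : x ∈ M)
    (hx' : x' ∈ M) (h0 : x ≠ 0) (h0' : x' ≠ 0) (hd : x' - x ∈ (f : FI K) * M) :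
    g0 χ M x' = g0 χ M x := by
  obtain ⟨i1, -, i3, i4, -, -, -⟩ := hID K M hM
  have hI := i1 x hx
  have hI' := i1 x' hx'
  have hsup : idl K M x ⊔ f = idl K M x' ⊔ f := by
    apply FractionalIdeal.coeIdeal_injective (K := K)
    apply mul_right_cancel₀ hM
    rw [coe_sup_mul, coe_sup_mul, hI, hI']
    exact le_antisymm (span_sup_le hd) (span_sup_le (mem_of_sub hd))
  by_cases hc : idl K M x ⊔ f = ⊤
  · -- the coprime case
    have hbot : idl K M x ≠ ⊥ := fun h => h0 ((i4 x hx).1 h)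
    obtain ⟨b, hb, hb0, hb1⟩ : ∃ b ∈ idl K M x, b ≠ 0 ∧ b - 1 ∈ f := by
      have h1 : (1 : 𝓞 K) ∈ idl K M x ⊔ f := by rw [hc]; exact Submodule.mem_top
      obtain ⟨b, hb, c, hcf, hbc⟩ := Submodule.mem_sup.1 h1
      by_cases hb0 : b = 0
      · have h2 : f = ⊤ := by
          rw [Ideal.eq_top_iff_one, ← hbc, hb0, zero_add]
          exact hcf
        obtain ⟨b', hb', hb0'⟩ := Submodule.exists_mem_ne_zero_of_ne_bot hbot
        exact ⟨b', hb', hb0', by rw [h2]; exact Submodule.mem_top⟩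
      · refine ⟨b, hb, hb0, ?_⟩
        have h3 : b - 1 = -c := by rw [← hbc]; ring
        rw [h3]
        exact neg_mem hcf
    have h4 : (b : K) * x' ∈ FractionalIdeal.spanSingleton (𝓞 K)⁰ x := by
      rw [← hI]
      exact FractionalIdeal.mul_mem_mul (FractionalIdeal.mem_coeIdeal_of_mem _ hb) hx'
    obtain ⟨a, ha⟩ := (FractionalIdeal.mem_spanSingleton (𝓞 K)⁰).1 h4
    rw [Algebra.smul_def] at ha
    change (a : K) * x = (b : K) * x' at ha
    have hbK : (b : K) ≠ 0 := by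
      intro h
      exact hb0 (FaithfulSMul.algebraMap_injective (𝓞 K) K (by rw [map_zero]; exact h))
    have haK : (a : K) ≠ 0 := by
      intro h
      rw [h, zero_mul] at ha
      exact mul_ne_zero hbK h0' ha.symm
    have ha0 : a ≠ 0 := by
      rintro rfl
      exact haK (map_zero _)
    have hab : a - b ∈ f := by
      have h5 : (b : K) * (x' - x) ∈ (idl K M x : FI K) * ((f : FI K) * M) :=
        FractionalIdeal.mul_mem_mul (FractionalIdeal.mem_coeIdeal_of_mem _ hb) hd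
      rw [mul_left_comm, hI, mul_comm] at h5
      obtain ⟨y, hy, hyx⟩ := FractionalIdeal.mem_singleton_mul.1 h5
      obtain ⟨c, hcf, hcy⟩ := (FractionalIdeal.mem_coeIdeal (𝓞 K)⁰).1 hy
      have h6 : ((a - b : 𝓞 K) : K) * x = (c : K) * x := by
        have h7 : ((a - b : 𝓞 K) : K) = (a : K) - (b : K) := map_sub _ _ _
        rw [h7, sub_mul, ha, ← mul_sub, hyx, ← hcy]
        exact mul_comm _ _
      have h8 : a - b = c :=
        FaithfulSMul.algebraMap_injective (𝓞 K) K (mul_right_cancel₀ h0 h6)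
      rw [h8]
      exact hcf
    have ha1 : a - 1 ∈ f := by
      have h9 := f.add_mem hab hb1
      rwa [sub_add_sub_cancel] at h9
    have hpa := χ.princ a ha0 ha1
    have hpb := χ.princ b hb0 hb1
    have h10 : Ideal.span {a} * idl K M x = Ideal.span {b} * idl K M x' := by
      rw [← i3 a x hx, ← i3 b x' hx', ha]
    have h11 := congrArg χ.ψ h10
    rw [χ.map_mul, χ.map_mul, hpa, hpb] at h11
    have h12 : (starRingEnd ℂ) (ag χ.k (a : K)) * (starRingEnd ℂ) (ag χ.k x) =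
        (starRingEnd ℂ) (ag χ.k (b : K)) * (starRingEnd ℂ) (ag χ.k x') := by
      rw [← cg_ag_mul hAG _ haK h0, ← cg_ag_mul hAG _ hbK h0', ha]
    have h12' : (starRingEnd ℂ) (ph χ.ν (a : K)) * (starRingEnd ℂ) (ph χ.ν x) =
        (starRingEnd ℂ) (ph χ.ν (b : K)) * (starRingEnd ℂ) (ph χ.ν x') := by
      rw [← map_mul, ← map_mul, ← cf_ph_mul _ haK h0, ← cf_ph_mul _ hbK h0', ha]
    have h13 := cg_ag_conj hAG χ.k haK
    have h14 := cg_ag_conj hAG χ.k hbK
    have h15 := cf_ph_conj χ.ν (a : K)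
    have h16 := cf_ph_conj χ.ν (b : K)
    unfold g0
    calc (starRingEnd ℂ) (ag χ.k x') * (starRingEnd ℂ) (ph χ.ν x') * χ.ψ (idl K M x')
        = ((starRingEnd ℂ) (ag χ.k (b : K)) * (starRingEnd ℂ) (ag χ.k x')) *
            ((starRingEnd ℂ) (ph χ.ν (b : K)) * (starRingEnd ℂ) (ph χ.ν x')) *
            (ag χ.k (b : K) * ph χ.ν (b : K) * χ.ψ (idl K M x')) := by
          linear_combination (-((starRingEnd ℂ) (ag χ.k x') * (starRingEnd ℂ) (ph χ.ν x') *
            χ.ψ (idl K M x'))) * h14 - (ag χ.k (b : K) * (starRingEnd ℂ) (ag χ.k (b : K)) *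
            ((starRingEnd ℂ) (ag χ.k x') * (starRingEnd ℂ) (ph χ.ν x') *
              χ.ψ (idl K M x'))) * h16
      _ = ((starRingEnd ℂ) (ag χ.k (a : K)) * (starRingEnd ℂ) (ag χ.k x)) *
            ((starRingEnd ℂ) (ph χ.ν (a : K)) * (starRingEnd ℂ) (ph χ.ν x)) *
            (ag χ.k (a : K) * ph χ.ν (a : K) * χ.ψ (idl K M x)) := by
          rw [← h12, ← h12', ← h11]
      _ = _ := by
          linear_combination ((starRingEnd ℂ) (ag χ.k x) * (starRingEnd ℂ) (ph χ.ν x) *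
            χ.ψ (idl K M x)) * h13 + (ag χ.k (a : K) * (starRingEnd ℂ) (ag χ.k (a : K)) *
            ((starRingEnd ℂ) (ag χ.k x) * (starRingEnd ℂ) (ph χ.ν x) *
              χ.ψ (idl K M x))) * h15
  · unfold g0
    rw [χ.eq_zero _ hc, χ.eq_zero _ (by rw [← hsup]; exact hc), mul_zero, mul_zero]

lemma cg_periodic (hAG : U_AG) (hID : T_ID) (χ : HG K f) (hf : f ≠ ⊥) {M : FI K} (hM : M ≠ 0) {x : K}
    (hx : x ∈ M) {l : K} (hl : l ∈ (f : FI K) * M) : cg χ M (x + l) = cg χ M x := by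
  obtain ⟨hz0, hz⟩ := z1_spec hID hf hM
  have hle : (f : FI K) * M ≤ M := fM_le M
  have key : ∀ y ∈ M, ∃ y' ∈ M, y' ≠ 0 ∧ y' - y ∈ (f : FI K) * M ∧
      cg χ M y = g0 χ M y' := by
    intro y hy
    by_cases h : y = 0
    · refine ⟨z1 K f M, hle hz, hz0, ?_, ?_⟩
      · rw [h, sub_zero]
        exact hz
      · rw [h]
        exact cg_zero_g0 χ M
    · refine ⟨y, hy, h, ?_, cg_eq_g0 χ M h⟩
      rw [sub_self]
      exact FractionalIdeal.zero_mem _
  obtain ⟨x1, hx1, hx10, hx1d, hx1c⟩ := key x hx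
  have hxl : x + l ∈ M := Submodule.add_mem M.coeToSubmodule hx (hle hl)
  obtain ⟨x2, hx2, hx20, hx2d, hx2c⟩ := key (x + l) hxl
  rw [hx1c, hx2c]
  refine cg_step1 hAG hID χ M hM hx1 hx2 hx10 hx20 ?_
  have h1 := Submodule.sub_mem ((f : FI K) * M).coeToSubmodule
    (Submodule.add_mem ((f : FI K) * M).coeToSubmodule hx2d hl) hx1d
  have h2 : x2 - (x + l) + l - (x1 - x) = x2 - x1 := by ring
  rw [h2] at h1
  exact h1

end

theorem pf_CG (hAG : U_AG) : U_CG := by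
  intro K _ _ f χ M hf hM
  have hID : T_ID := Pool.Agent.H92.RC.pf_ID
  have i4 := (hID K M hM).2.2.2.1
  refine ⟨fun x _ h0 => cg_eq_g0 χ M h0, ?_, ?_,
    fun x hx l hl => cg_periodic hAG hID χ hf hM hx hl, ?_, ?_,
    cg_zero_of_ne_top hID χ hf hM, ?_⟩
  · intro x _
    by_cases h : x = 0
    · rw [h, cg_zero_g0, g0_norm hAG χ M (z1_spec hID hf hM).1]
      exact hg_norm_le χ _
    · rw [cg_eq_g0 χ M h, g0_norm hAG χ M h]
      exact hg_norm_le χ _
  · intro u x hx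
    have h1 := cg_mul_a hAG hID χ hf hM u.ne_zero hx
    rw [Ideal.span_singleton_eq_top.2 u.isUnit, χ.map_top, mul_one] at h1
    exact h1
  · intro x hx h0 h
    rw [cg_eq_g0 χ M h0, g0_norm hAG χ M h0]
    exact χ.norm_one _ (fun h1 => h0 ((i4 x hx).1 h1)) h
  · intro x _ h0 h
    rw [cg_eq_g0 χ M h0]
    unfold g0
    rw [χ.eq_zero _ h, mul_zero]
  · intro hft
    obtain ⟨hz0, hz⟩ := z1_spec hID hf hM
    rw [cg_zero_g0, g0_norm hAG χ M hz0]
    refine χ.norm_one _ (fun h1 => hz0 ((i4 _ (fM_le M hz)).1 h1)) ?_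
    rw [hft, sup_top_eq]

end Pool.Agent.H60.GLB
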