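import Pool.Agent.H23.LC.Targets
import Pool.Agent.H60.GLB.CG
import Pool.Agent.H94.GLA.OR
import Pool.Agent.H65.GLA.RR
import Pool.Agent.H48.RC.RX
import Pool.Agent.H92.RC.ID

/-!
# Board glb_modules, module OG: orthogonality of the characters
-/

set_option autoImplicit false

open NumberField NumberField.InfinitePlace NumberField.Units
  NumberField.Units.dirichletUnitTheorem MeasureTheory Set Filter Complex
open scoped nonZeroDivisors ENNReal

namespace Pool.Agent.H60.GLB

open Pool.Agent.H25.HK Pool.Agent.H69.RC Pool.Agent.H23.LB Pool.Agent.H23.LC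
open Pool.Agent.H28.RC hiding cf gS T_H1
open Pool.Agent.H94.GLA

section

variable {K : Type} [Field K] [NumberField K]

theorem cgh_scale (hID : T_ID) (hAG : U_AG) (hCG : U_CG) (hPU : T_PU) {f : Ideal (𝓞 K)} (hf : f ≠ ⊥)
    (χ : HG K f) {M : FI K} (hM : M ≠ 0) {t : K} (ht : t ≠ 0) {x : K} (hx : x ∈ M) :
    cg χ (sp t * M) (t * x) =
      (starRingEnd ℂ) (ag χ.k t) * (starRingEnd ℂ) (ph χ.ν t) * cg χ M x := by
  have hspt : sp t ≠ 0 := FractionalIdeal.spanSingleton_ne_zero_iff.2 ht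
  have hmem : ∀ y ∈ M, t * y ∈ sp t * M := fun y hy =>
    FractionalIdeal.mul_mem_mul (FractionalIdeal.mem_spanSingleton_self _ t) hy
  have hne : ∀ x ∈ M, x ≠ 0 → cg χ (sp t * M) (t * x) =
      (starRingEnd ℂ) (ag χ.k t) * (starRingEnd ℂ) (ph χ.ν t) * cg χ M x := by
    intro x hx hx0
    rw [(hCG K f χ _ hf (mul_ne_zero hspt hM)).1 _ (hmem x hx) (mul_ne_zero ht hx0),
      (hCG K f χ M hf hM).1 x hx hx0, (hID K M hM).2.2.2.2.2.2 t ht x hx, cg_ag_mul hAG _ ht hx0,
      (hPU K).2.2.2.2.2.1 χ.ν t x ht hx0, map_mul]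
    ring
  by_cases hx0 : x = 0
  · subst hx0
    obtain ⟨z, hz0, hz1, hz2⟩ := exists_z hID hf hM
    have h1 := (hCG K f χ M hf hM).2.2.2.1 0 (fzero _) z hz1
    rw [zero_add] at h1
    have h5 : t * z ∈ (f : FI K) * (sp t * M) := by
      rw [mul_left_comm]
      exact FractionalIdeal.mul_mem_mul (FractionalIdeal.mem_spanSingleton_self _ t) hz1
    have h2 := (hCG K f χ _ hf (mul_ne_zero hspt hM)).2.2.2.1 0 (fzero _) _ h5
    rw [zero_add] at h2
    rw [mul_zero, ← h1, ← h2]
    exact hne z hz2 hz0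
  · exact hne x hx hx0

theorem cgh_J (hID : T_ID) (hCG : U_CG) {f : Ideal (𝓞 K)} (hf : f ≠ ⊥)
    (χ : HG K f) {M : FI K} (hM : M ≠ 0) {J : Ideal (𝓞 K)} (hJ : J ≠ ⊥) {x : K}
    (hx : x ∈ (J : FI K) * M) : cg χ M x = χ.ψ J * cg χ ((J : FI K) * M) x := by
  have hJM : (J : FI K) * M ≠ 0 := mul_ne_zero (FractionalIdeal.coeIdeal_ne_zero.2 hJ) hM
  have hne : ∀ x ∈ (J : FI K) * M, x ≠ 0 → cg χ M x = χ.ψ J * cg χ ((J : FI K) * M) x := by
    intro x hx hx0
    obtain ⟨h1, h2⟩ := (hID K M hM).2.2.2.2.1 J hJ x hx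
    rw [(hCG K f χ M hf hM).1 x h1 hx0, (hCG K f χ _ hf hJM).1 x hx hx0, h2, χ.map_mul]
    ring
  by_cases hx0 : x = 0
  · subst hx0
    obtain ⟨z, hz0, hz1, hz2⟩ := exists_z hID hf hJM
    have h1 := (hCG K f χ _ hf hJM).2.2.2.1 0 (fzero _) z hz1
    have h5 : z ∈ (f : FI K) * M := by
      rw [mul_left_comm] at hz1
      exact sub_mem' hID hJ (mul_ne_zero (FractionalIdeal.coeIdeal_ne_zero.2 hf) hM) hz1
    have h2 := (hCG K f χ M hf hM).2.2.2.1 0 (fzero _) z h5
    rw [zero_add] at h1 h2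
    rw [← h1, ← h2]
    exact hne z hz2 hz0
  · exact hne x hx hx0

end

theorem pf_OG (hAG : U_AG) (hCG : U_CG) (hPU : T_PU) : U_OG := by
  classical
  intro K _ _ f hf D χ χ' hS
  have hRR : T_RR := Pool.Agent.H65.GLA.pf_RR
  have hID : T_ID := Pool.Agent.H92.RC.pf_ID
  have hRX : T_RX := Pool.Agent.H48.RC.pf_RX
  have hM : ∀ c, D.M c ≠ 0 := D.reps.1
  have hnph := (hPU K).2.2.2.2.2.2
  constructor
  · intro hne
    by_cases hν : χ.ν = χ'.ν
    · -- equal frequencies
      have hψ : χ.ψ ≠ χ'.ψ := by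
        intro h
        apply hne
        cases χ
        cases χ'
        simp only at hS hν h
        subst hS hν h
        rfl
      obtain ⟨J, hJ⟩ := Function.ne_iff.1 hψ
      have hJ0 : J ≠ ⊥ := by
        rintro rfl
        exact hJ (by rw [χ.map_bot, χ'.map_bot])
      have hJf : J ⊔ f = ⊤ := by
        by_contra hcon
        exact hJ (by rw [χ.eq_zero _ hcon, χ'.eq_zero _ hcon])
      have hρ : χ.ψ J * (starRingEnd ℂ) (χ'.ψ J) ≠ 1 := by
        intro h
        have h1 := conj_of_norm_one (χ'.norm_one J hJ0 hJf)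
        have h2 : (starRingEnd ℂ) (χ'.ψ J) ≠ 0 := right_ne_zero_of_mul_eq_one h1
        exact hJ (mul_right_cancel₀ h2 (h.trans h1.symm))
      have hS0 := sum_zero hID hRX hRR hf D.reps D.rep
        (fun M x => cg χ M x * (starRingEnd ℂ) (cg χ' M x)) ?_ ?_ hJ0 hJf
        (χ.ψ J * (starRingEnd ℂ) (χ'.ψ J)) hρ ?_
      · have hint : ∀ z : logSpace K, ec K χ.ν z * (starRingEnd ℂ) (ec K χ'.ν z) = 1 := by
          intro z
          rw [hν]
          exact conj_of_norm_one (((hPU K).2.2.2.2.1 χ'.ν).2 z)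
        have h3 : ∀ c, ∑ r ∈ D.X c, cg χ (D.M c) r * (starRingEnd ℂ) (cg χ' (D.M c) r) *
            ∫ z in Fd K, ec K χ.ν z * (starRingEnd ℂ) (ec K χ'.ν z) =
            (∑ r ∈ D.X c, cg χ (D.M c) r * (starRingEnd ℂ) (cg χ' (D.M c) r)) *
              ∫ z in Fd K, ec K χ.ν z * (starRingEnd ℂ) (ec K χ'.ν z) := fun c =>
          (Finset.sum_mul _ _ _).symm
        rw [Finset.sum_congr rfl fun c _ => h3 c, ← Finset.sum_mul]
        rw [hS0, zero_mul]
      · intro M hM x hx l hl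
        rw [(hCG K f χ M hf hM).2.2.2.1 x hx l hl, (hCG K f χ' M hf hM).2.2.2.1 x hx l hl]
      · intro M hM t ht x hx
        rw [cgh_scale hID hAG hCG hPU hf χ hM ht hx, cgh_scale hID hAG hCG hPU hf χ' hM ht hx, ← hS,
          ← hν]
        rw [map_mul, map_mul, Complex.conj_conj, Complex.conj_conj]
        have h4 := conj_of_norm_one ((hAG K χ.k).2.1 t ht)
        have h5 := conj_of_norm_one (hnph χ.ν t)
        calc (starRingEnd ℂ) (ag χ.k t) * (starRingEnd ℂ) (ph χ.ν t) * cg χ M x *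
              (ag χ.k t * ph χ.ν t * (starRingEnd ℂ) (cg χ' M x)) =
            (ag χ.k t * (starRingEnd ℂ) (ag χ.k t)) * (ph χ.ν t * (starRingEnd ℂ) (ph χ.ν t)) *
              (cg χ M x * (starRingEnd ℂ) (cg χ' M x)) := by ring
          _ = _ := by rw [h4, h5, one_mul, one_mul]
      · intro M hM x hx
        rw [cgh_J hID hCG hf χ hM hJ0 hx, cgh_J hID hCG hf χ' hM hJ0 hx, map_mul]
        ring
    · -- different frequencies
      by_cases hu : ∀ u : (𝓞 K)ˣ, (starRingEnd ℂ) (ph χ.ν (u : K)) * ph χ'.ν (u : K) = 1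
      · rw [int_zero hPU χ.norm_zero χ'.norm_zero hν hu]
        refine Finset.sum_eq_zero fun c _ => Finset.sum_eq_zero fun r _ => by rw [mul_zero]
      · push Not at hu
        obtain ⟨u, hu⟩ := hu
        refine Finset.sum_eq_zero fun c _ => ?_
        have huK : (u : K) ≠ 0 := by
          have := u.ne_zero
          intro h
          exact this (FaithfulSMul.algebraMap_injective (𝓞 K) K (by rw [map_zero]; exact h))
        have hspu : sp (u : K) * D.M c = D.M c := by
          have h1 : sp (u : K) = 1 := by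
            have h2 : Ideal.span {(u : 𝓞 K)} = ⊤ := Ideal.span_singleton_eq_top.2 u.isUnit
            have h3 := FractionalIdeal.coeIdeal_span_singleton (S := (𝓞 K)⁰) (P := K) (u : 𝓞 K)
            rw [h2, FractionalIdeal.coeIdeal_top] at h3
            exact h3.symm
          rw [h1, one_mul]
        have h1 := rep_scale (D.rep c) huK
        rw [hspu] at h1
        have hper : ∀ x ∈ D.M c, ∀ l ∈ (f : FI K) * D.M c,
            cg χ (D.M c) (x + l) * (starRingEnd ℂ) (cg χ' (D.M c) (x + l)) =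
            cg χ (D.M c) x * (starRingEnd ℂ) (cg χ' (D.M c) x) := by
          intro x hx l hl
          rw [(hCG K f χ _ hf (hM c)).2.2.2.1 x hx l hl,
            (hCG K f χ' _ hf (hM c)).2.2.2.1 x hx l hl]
        have h2 := sum_rep (D.rep c) h1
          (fun x => cg χ (D.M c) x * (starRingEnd ℂ) (cg χ' (D.M c) x)) hper
        rw [Finset.sum_image (fun a _ b _ h => mul_left_cancel₀ huK h)] at h2
        have h3 : ∀ r ∈ D.X c, cg χ (D.M c) ((u : K) * r) *
            (starRingEnd ℂ) (cg χ' (D.M c) ((u : K) * r)) =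
            ((starRingEnd ℂ) (ph χ.ν (u : K)) * ph χ'.ν (u : K)) *
              (cg χ (D.M c) r * (starRingEnd ℂ) (cg χ' (D.M c) r)) := by
          intro r hr
          have hrM := (D.rep c).1 r hr
          rw [(hCG K f χ _ hf (hM c)).2.2.1 u r hrM, (hCG K f χ' _ hf (hM c)).2.2.1 u r hrM,
            ← hS, map_mul, map_mul, Complex.conj_conj, Complex.conj_conj]
          have h4 := conj_of_norm_one ((hAG K χ.k).2.1 (u : K) huK)
          calc (starRingEnd ℂ) (ag χ.k (u : K)) * (starRingEnd ℂ) (ph χ.ν (u : K)) *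
                cg χ (D.M c) r *
                (ag χ.k (u : K) * ph χ'.ν (u : K) * (starRingEnd ℂ) (cg χ' (D.M c) r)) =
              (ag χ.k (u : K) * (starRingEnd ℂ) (ag χ.k (u : K))) *
              (((starRingEnd ℂ) (ph χ.ν (u : K)) * ph χ'.ν (u : K)) *
              (cg χ (D.M c) r * (starRingEnd ℂ) (cg χ' (D.M c) r))) := by ring
            _ = _ := by rw [h4, one_mul]
        rw [Finset.sum_congr rfl h3, ← Finset.mul_sum] at h2
        have h5 : (1 - (starRingEnd ℂ) (ph χ.ν (u : K)) * ph χ'.ν (u : K)) *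
            ∑ r ∈ D.X c, cg χ (D.M c) r * (starRingEnd ℂ) (cg χ' (D.M c) r) = 0 := by
          rw [sub_mul, one_mul, sub_eq_zero]
          exact h2
        have h6 : ∑ r ∈ D.X c, cg χ (D.M c) r * (starRingEnd ℂ) (cg χ' (D.M c) r) = 0 := by
          rcases mul_eq_zero.1 h5 with h | h
          · exact absurd (sub_eq_zero.1 h).symm hu
          · exact h
        rw [← Finset.sum_mul, h6, zero_mul]
  · have h1 : ∀ c, ∑ r ∈ D.X c, ‖cg χ (D.M c) r‖ ^ 2 = (Phi K f : ℝ) := by
      intro c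
      obtain ⟨-, -, -, hp, hn1, hn0, -, -⟩ := hCG K f χ (D.M c) hf (hM c)
      refine count hID hf (hM c) (D.rep c) (fun x => ‖cg χ (D.M c) x‖ ^ 2) ?_ ?_ ?_
      · intro x hx l hl
        rw [hp x hx l hl]
      · intro x hx hx0 h
        rw [hn1 x hx hx0 h, one_pow]
      · intro x hx hx0 h
        rw [hn0 x hx hx0 h, norm_zero]
        norm_num
    rw [Finset.sum_congr rfl fun c _ => h1 c, Finset.sum_const, Finset.card_univ,
      (hRR K D.ι D.M D.reps).2.2, nsmul_eq_mul]

end Pool.Agent.H60.GLB
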