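import Pool.Agent.H23.LC.Targets
import Pool.Agent.H19.GLB.PS
import Pool.Agent.H61.GLA.H2
import Pool.Agent.H63.HK.DU

/-!
# The dual sum over the residue classes
-/

set_option autoImplicit false

open NumberField NumberField.InfinitePlace NumberField.Units
  NumberField.Units.dirichletUnitTheorem MeasureTheory Set Filter Complex
open scoped nonZeroDivisors ENNReal

namespace Pool.Agent.H60.GLB

open Pool.Agent.H25.HK Pool.Agent.H23.LB Pool.Agent.H23.LC
open Pool.Agent.H28.RC (Rep ft idl)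

/-- a finite sum of squares over the characters -/
private theorem fin_pair {ι κ : Type*} (T : Finset ι) (X : Finset κ) (a : ι → ℂ) (e : κ → ι → ℂ)
    (β N : ℝ) (R : ι → ι → Prop) [∀ x y, Decidable (R x y)] (ha : ∀ x, ‖a x‖ ≤ β) (hβ : 0 ≤ β)
    (hor : ∀ x ∈ T, ∀ y ∈ T, ‖∑ r ∈ X, e r y * (starRingEnd ℂ) (e r x)‖ ≤
      if R x y then N else 0) :
    ∑ r ∈ X, ‖∑ x ∈ T, a x * e r x‖ ^ 2 ≤
      N * β ^ 2 * ∑ x ∈ T, ∑ y ∈ T, if R x y then (1 : ℝ) else 0 := by
  have h1 : ((∑ r ∈ X, ‖∑ x ∈ T, a x * e r x‖ ^ 2 : ℝ) : ℂ) =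
      ∑ x ∈ T, ∑ y ∈ T, (starRingEnd ℂ) (a x) * a y *
        ∑ r ∈ X, e r y * (starRingEnd ℂ) (e r x) := by
    push_cast
    have h2 : ∀ r ∈ X, ((‖∑ x ∈ T, a x * e r x‖ : ℝ) : ℂ) ^ 2 =
        ∑ x ∈ T, ∑ y ∈ T, (starRingEnd ℂ) (a x) * a y * (e r y * (starRingEnd ℂ) (e r x)) := by
      intro r _
      rw [← Complex.conj_mul', map_sum, Finset.sum_mul_sum]
      refine Finset.sum_congr rfl fun x _ => Finset.sum_congr rfl fun y _ => ?_
      rw [map_mul]
      ring
    rw [Finset.sum_congr rfl h2, Finset.sum_comm]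
    refine Finset.sum_congr rfl fun x _ => ?_
    rw [Finset.sum_comm]
    refine Finset.sum_congr rfl fun y _ => ?_
    rw [Finset.mul_sum]
  have h3 : ∑ r ∈ X, ‖∑ x ∈ T, a x * e r x‖ ^ 2 =
      ‖((∑ r ∈ X, ‖∑ x ∈ T, a x * e r x‖ ^ 2 : ℝ) : ℂ)‖ := by
    rw [Complex.norm_real, Real.norm_of_nonneg]
    exact Finset.sum_nonneg fun r _ => by positivity
  rw [h3, h1, Finset.mul_sum]
  refine (norm_sum_le _ _).trans (Finset.sum_le_sum fun x hx => ?_)
  rw [Finset.mul_sum]
  refine (norm_sum_le _ _).trans (Finset.sum_le_sum fun y hy => ?_)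
  rw [norm_mul, norm_mul, RCLike.norm_conj]
  have h4 := hor x hx y hy
  have h5 : ‖a x‖ * ‖a y‖ ≤ β * β := mul_le_mul (ha x) (ha y) (norm_nonneg _) hβ
  split_ifs at h4 ⊢
  · have h6 := mul_le_mul h5 h4 (norm_nonneg _) (mul_nonneg hβ hβ)
    calc _ ≤ _ := h6
      _ = _ := by ring
  · have h6 := mul_le_mul h5 h4 (norm_nonneg _) (mul_nonneg hβ hβ)
    calc _ ≤ _ := h6
      _ = _ := by ring

variable {K : Type} [Field K] [NumberField K]

/-- the difference of two points of a thin region -/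
private theorem sub_small' {δ : ℝ} {x y : K} {Y θ : InfinitePlace K → ℝ} (hx : Bd δ x Y θ)
    (hy : Bd δ y Y θ) (v : InfinitePlace K) : v (y - x) * Real.exp (Y v / 2) ≤ 2 * δ := by
  have h1 := hx v
  have h2 := hy v
  have h3 : ‖v.embedding (y - x) * ((Real.exp (Y v / 2) : ℝ) : ℂ) *
      (starRingEnd ℂ) (an v (θ v))‖ ≤ 2 * δ := by
    have e : v.embedding (y - x) * ((Real.exp (Y v / 2) : ℝ) : ℂ) *
        (starRingEnd ℂ) (an v (θ v)) =
        (v.embedding y * ((Real.exp (Y v / 2) : ℝ) : ℂ) * (starRingEnd ℂ) (an v (θ v)) - 1) -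
        (v.embedding x * ((Real.exp (Y v / 2) : ℝ) : ℂ) *
          (starRingEnd ℂ) (an v (θ v)) - 1) := by
      rw [map_sub]; ring
    rw [e]
    calc _ ≤ _ + _ := norm_sub_le _ _
      _ ≤ 2 * δ := by linarith
  rw [norm_mul, norm_mul, RCLike.norm_conj, Pool.Agent.H19.GLB.norm_an, mul_one,
    Complex.norm_real, Real.norm_of_nonneg (Real.exp_pos _).le,
    InfinitePlace.norm_embedding_eq] at h3
  exact h3

private theorem nb_pos {δ : ℝ} (hδ : 0 < δ) (L : FI K) (y : InfinitePlace K → ℝ) :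
    1 ≤ NB (2 * δ) L y := by
  classical
  unfold NB
  refine le_trans (le_of_eq ?_) (ENNReal.le_tsum (⟨0, Pool.Agent.H69.RC.fzero L⟩ :
    {h : K // h ∈ L}))
  rw [if_pos]
  intro v
  rw [map_zero, zero_mul]
  positivity

open scoped Classical in
private theorem inner_le {δ Y : ℝ} {L L' : FI K} {y : InfinitePlace K → ℝ}
    {θ : InfinitePlace K → ℝ} {x : {x : K // Bl Y L x}} (hx : Bd δ x.1 y θ) :
    ∑' x' : {x : K // Bl Y L x},
      (if x'.1 - x.1 ∈ L' ∧ Bd δ x'.1 y θ then (1 : ℝ≥0∞) else 0) ≤ NB (2 * δ) L' y := by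
  let S : Set {x : K // Bl Y L x} := {x' | x'.1 - x.1 ∈ L' ∧ Bd δ x'.1 y θ}
  have h4 : ∑' x' : {x : K // Bl Y L x},
      (if x'.1 - x.1 ∈ L' ∧ Bd δ x'.1 y θ then (1 : ℝ≥0∞) else 0) =
        ∑' x' : S, (1 : ℝ≥0∞) := by
    rw [tsum_subtype S fun _ => (1 : ℝ≥0∞)]
    refine tsum_congr fun x' => ?_
    rw [Set.indicator_apply]
    rfl
  rw [h4]
  let φ : S → {h : K // h ∈ L'} := fun x' => ⟨x'.1.1 - x.1, x'.2.1⟩
  have hφ : Function.Injective φ := by
    intro y y' h
    have h5 : y.1.1 - x.1 = y'.1.1 - x.1 := congrArg Subtype.val h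
    have h6 : y.1.1 = y'.1.1 := by linear_combination h5
    exact Subtype.ext (Subtype.ext h6)
  let g : {h : K // h ∈ L'} → ℝ≥0∞ := fun h =>
    if ∀ v : InfinitePlace K, v h.1 * Real.exp (y v / 2) ≤ 2 * δ then 1 else 0
  have h7 : ∀ x' : S, (1 : ℝ≥0∞) = g (φ x') := by
    intro x'
    have h8 : ∀ v : InfinitePlace K, v (φ x').1 * Real.exp (y v / 2) ≤ 2 * δ :=
      fun v => sub_small' hx x'.2.2 v
    change 1 = if ∀ v : InfinitePlace K, v (φ x').1 * Real.exp (y v / 2) ≤ 2 * δ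
      then (1 : ℝ≥0∞) else 0
    rw [if_pos h8]
  have h9 : ∑' x' : S, g (φ x') ≤ ∑' h, g h := ENNReal.tsum_comp_le_tsum_of_injective hφ g
  calc ∑' x' : S, (1 : ℝ≥0∞) = ∑' x' : S, g (φ x') := tsum_congr h7
    _ ≤ ∑' h, g h := h9
    _ = NB (2 * δ) L' y := rfl

private theorem f_mul_du {f : Ideal (𝓞 K)} {M : FI K} (hf : f ≠ ⊥) (hM : M ≠ 0) :
    (f : FI K) * du K ((f : FI K) * M) = du K M := by
  have hf0 : (f : FI K) ≠ 0 := FractionalIdeal.coeIdeal_ne_zero.2 hf
  rw [(Pool.Agent.H63.HK.du K _ (mul_ne_zero hf0 hM)).2.2.1,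
    (Pool.Agent.H63.HK.du K _ hM).2.2.1, ← mul_assoc, mul_inv, ← mul_assoc, mul_inv_cancel₀ hf0,
    one_mul]

open scoped Classical in
theorem pf_PD : U_PD := by
  intro K _ _ f M X δ Y β b τ z θ hf hM hX hδ _ _ hb
  have hβ : 0 ≤ β := (norm_nonneg _).trans (hb ⊤)
  have hf0 : (f : FI K) ≠ 0 := FractionalIdeal.coeIdeal_ne_zero.2 hf
  have hfM : (f : FI K) * M ≠ 0 := mul_ne_zero hf0 hM
  obtain ⟨hL', hL'2, -, -, -⟩ := Pool.Agent.H63.HK.du K M hM
  have hNf : 0 < Nf K f := by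
    unfold Nf
    have : Ideal.absNorm f ≠ 0 := by
      rw [Ne, Ideal.absNorm_eq_zero_iff]
      exact hf
    positivity
  rw [f_mul_du hf hM]
  set L := du K ((f : FI K) * M) with hL
  set y := yM K L τ (-z) with hy
  let P : {x : K // Bl Y L x} → Prop := fun x => Bd δ x.1 y θ
  let S : Set {x : K // Bl Y L x} := {x | P x}
  have hND : ND δ Y L τ (-z) θ = ∑' x : {x : K // Bl Y L x}, if P x then (1 : ℝ≥0∞) else 0 :=
    rfl
  have hNB := nb_pos hδ (du K M) y
  by_cases hfin : S.Finite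
  · -- finitely many points
    set T := hfin.toFinset with hT
    have hmem : ∀ x, x ∈ T ↔ P x := fun x => by
      rw [hT, Set.Finite.mem_toFinset]
      rfl
    have hSd : ∀ r, Sd δ Y b L r τ z θ = ∑ x ∈ T, b (idl K L x.1) * ca K r x.1 := by
      intro r
      unfold Sd
      rw [tsum_eq_sum (s := T)]
      · refine Finset.sum_congr rfl fun x hx => ?_
        exact if_pos ((hmem x).1 hx)
      · intro x hx
        exact if_neg fun h => hx ((hmem x).2 h)
    have hor : ∀ x ∈ T, ∀ x' ∈ T, ‖∑ r ∈ X, ca K r x'.1 * (starRingEnd ℂ) (ca K r x.1)‖ ≤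
        if x'.1 - x.1 ∈ du K M then Nf K f else 0 := by
      intro x _ x' _
      have h1 : ∑ r ∈ X, ca K r x'.1 * (starRingEnd ℂ) (ca K r x.1) =
          ∑ r ∈ X, Pool.Agent.H69.RC.ex (r * (x'.1 - x.1)) := by
        refine Finset.sum_congr rfl fun r _ => ?_
        have h2 : (starRingEnd ℂ) (ca K r x.1) = Pool.Agent.H69.RC.ex (-(r * x.1)) :=
          Pool.Agent.H48.RC.conj_ex (r * x.1)
        rw [h2]
        have h3 : r * (x'.1 - x.1) = r * x'.1 + -(r * x.1) := by ring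
        rw [h3, Pool.Agent.H48.RC.ex_add']
        rfl
      rw [h1, Pool.Agent.H48.RC.ortho (L := du K M) (N := M) (M := L) hL' hM hL'2.symm rfl hfM
        rfl hX (Pool.Agent.H69.RC.fsub x'.2.1 x.2.1)]
      split_ifs
      · rw [Complex.norm_natCast]
        exact Pool.Agent.H61.GLA.rep_card_le f M hf hM X hX
      · simp
    have key := fin_pair T X (fun x => b (idl K L x.1)) (fun r x => ca K r x.1) β (Nf K f)
      (fun x x' => x'.1 - x.1 ∈ du K M) (fun x => hb _) hβ hor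
    have h1 : ∑ r ∈ X, ENNReal.ofReal (‖Sd δ Y b L r τ z θ‖ ^ 2) =
        ENNReal.ofReal (∑ r ∈ X, ‖∑ x ∈ T, b (idl K L x.1) * ca K r x.1‖ ^ 2) := by
      rw [ENNReal.ofReal_sum_of_nonneg fun r _ => by positivity]
      exact Finset.sum_congr rfl fun r _ => by rw [hSd r]
    rw [h1]
    refine (ENNReal.ofReal_le_ofReal key).trans ?_
    rw [ENNReal.ofReal_mul (by positivity), mul_assoc]
    refine mul_le_mul_right ?_ _
    have h2 : ENNReal.ofReal (∑ x ∈ T, ∑ x' ∈ T,
        if x'.1 - x.1 ∈ du K M then (1 : ℝ) else 0) =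
        ∑ x ∈ T, ∑ x' ∈ T, if x'.1 - x.1 ∈ du K M then (1 : ℝ≥0∞) else 0 := by
      rw [ENNReal.ofReal_sum_of_nonneg fun x _ => Finset.sum_nonneg fun x' _ => by
        split_ifs <;> norm_num]
      refine Finset.sum_congr rfl fun x _ => ?_
      rw [ENNReal.ofReal_sum_of_nonneg fun x' _ => by split_ifs <;> norm_num]
      refine Finset.sum_congr rfl fun x' _ => ?_
      split_ifs <;> simp
    rw [h2, hND, ← ENNReal.tsum_mul_right]
    refine le_trans (Finset.sum_le_sum fun x hx => ?_) (ENNReal.sum_le_tsum T)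
    have hPx : P x := (hmem x).1 hx
    rw [if_pos hPx, one_mul]
    refine le_trans (le_trans (Finset.sum_le_sum fun x' hx' => ?_) (ENNReal.sum_le_tsum T))
      (inner_le (L' := du K M) hPx)
    by_cases h : x'.1 - x.1 ∈ du K M
    · rw [if_pos h, if_pos ⟨h, (hmem x').1 hx'⟩]
    · rw [if_neg h]
      exact zero_le
  · -- infinitely many points
    have hND' : ND δ Y L τ (-z) θ = ⊤ := by
      rw [hND]
      have h1 : ∑' x : {x : K // Bl Y L x}, (if P x then (1 : ℝ≥0∞) else 0) =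
          ∑' x : S, (1 : ℝ≥0∞) := by
        rw [tsum_subtype S fun _ => (1 : ℝ≥0∞)]
        refine tsum_congr fun x' => ?_
        rw [Set.indicator_apply]
        rfl
      have : Infinite S := Set.infinite_coe_iff.2 hfin
      rw [h1]
      exact ENNReal.tsum_const_eq_top_of_ne_zero one_ne_zero
    rcases hβ.eq_or_lt with h0 | hpos
    · have hb0 : ∀ J, b J = 0 := fun J => by
        have := hb J
        rw [← h0] at this
        exact norm_le_zero_iff.1 this
      have hS0 : ∀ r, Sd δ Y b L r τ z θ = 0 := by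
        intro r
        unfold Sd
        have : ∀ x : {x : K // Bl Y L x}, (if Bd δ x.1 (yM K L τ (-z)) θ then
            b (idl K L x.1) * ca K r x.1 else 0) = 0 := by
          intro x
          rw [hb0, zero_mul, ite_self]
        rw [tsum_congr this, tsum_zero]
      rw [Finset.sum_eq_zero fun r _ => by rw [hS0 r]; simp]
      exact zero_le
    · rw [hND', ENNReal.mul_top, ENNReal.top_mul]
      · exact le_top
      · intro h
        rw [h] at hNB
        exact absurd hNB (by simp)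
      · rw [Ne, ENNReal.ofReal_eq_zero, not_le]
        positivity

end Pool.Agent.H60.GLB
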